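import Pool.Agent.MNU.StmtsU

set_option autoImplicit false

/-!
# MNU, row HSI: `IsSol` for odd degree is the same as `HSol`
-/

namespace Pool.Agent.MNU.H65

open Polynomial NumberField
open Pool.Agent.MNT

/-- HSI. -/
theorem hsi : HsiStmt := by
  intro g K _ f ξ N U W c hf
  have hGm : ((X - C ξ) ^ N : K[X]).natDegree = N := by
    rw [natDegree_pow, natDegree_X_sub_C, mul_one]
  constructor
  · intro h
    have hc := h.c_ne
    have hGd : (C c * (X - C ξ) ^ N : K[X]).natDegree = N := by
      rw [natDegree_C_mul hc, hGm]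
    have hGl : (C c * (X - C ξ) ^ N : K[X]).leadingCoeff = c := by
      rw [leadingCoeff_mul, leadingCoeff_C, leadingCoeff_pow, leadingCoeff_X_sub_C, one_pow, mul_one]
    have hU0 : U ≠ 0 := by
      rintro rfl
      exact h.ev eval_zero
    refine ⟨h.pos, h.c_ne, h.eq, h.deg.le, ?_, h.ev⟩
    by_cases hW : W = 0
    · exact Or.inl hW
    · right
      have hG0 : (C c * (X - C ξ) ^ N : K[X]) ≠ 0 := by
        intro h0
        rw [h0, leadingCoeff_zero] at hGl
        exact hc hGl.symm
      have h1 : f * W ^ 2 = U ^ 2 - (C c * (X - C ξ) ^ N) ^ 2 := by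
        have := h.eq
        linear_combination -this
      have hdU : (U ^ 2).natDegree = 2 * N := by
        rw [natDegree_pow, h.deg]
      have hdG : ((C c * (X - C ξ) ^ N : K[X]) ^ 2).natDegree = 2 * N := by
        rw [natDegree_pow, hGd]
      have hlt : (f * W ^ 2).degree < (U ^ 2).degree := by
        rw [h1]
        apply degree_sub_lt
        · rw [degree_eq_natDegree (pow_ne_zero 2 hU0), degree_eq_natDegree (pow_ne_zero 2 hG0),
            hdU, hdG]
        · exact pow_ne_zero 2 hU0
        · rw [leadingCoeff_pow, leadingCoeff_pow, hGl, h.lead]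
      have hf0 : f ≠ 0 := by
        rintro rfl
        rw [natDegree_zero] at hf
        omega
      have hfW : f * W ^ 2 ≠ 0 := mul_ne_zero hf0 (pow_ne_zero 2 hW)
      rw [degree_eq_natDegree hfW, degree_eq_natDegree (pow_ne_zero 2 hU0), hdU,
        natDegree_mul hf0 (pow_ne_zero 2 hW), natDegree_pow, hf] at hlt
      have hlt' : 2 * g + 1 + 2 * W.natDegree < 2 * N := by exact_mod_cast hlt
      omega
  · intro h
    have hc := h.c_ne
    have hGd : (C c * (X - C ξ) ^ N : K[X]).natDegree = N := by
      rw [natDegree_C_mul hc, hGm]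
    have hGl : (C c * (X - C ξ) ^ N : K[X]).leadingCoeff = c := by
      rw [leadingCoeff_mul, leadingCoeff_C, leadingCoeff_pow, leadingCoeff_X_sub_C, one_pow, mul_one]
    have hG0 : (C c * (X - C ξ) ^ N : K[X]) ≠ 0 := by
      intro h0
      rw [h0, leadingCoeff_zero] at hGl
      exact hc hGl.symm
    have hN := h.pos
    have hdG : ((C c * (X - C ξ) ^ N : K[X]) ^ 2).natDegree = 2 * N := by
      rw [natDegree_pow, hGd]
    have hd : (f * W ^ 2).natDegree < 2 * N := by
      rcases h.degW with h0 | hW
      · rw [h0]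
        simp only [ne_eq, OfNat.ofNat_ne_zero, not_false_eq_true, zero_pow, mul_zero, natDegree_zero]
        omega
      · have h3 : (f * W ^ 2).natDegree ≤ f.natDegree + (W ^ 2).natDegree := natDegree_mul_le
        rw [natDegree_pow, hf] at h3
        omega
    have hdd : (f * W ^ 2).degree < ((C c * (X - C ξ) ^ N : K[X]) ^ 2).degree :=
      degree_lt_degree (by rw [hdG]; exact hd)
    have h2 : U ^ 2 = (C c * (X - C ξ) ^ N) ^ 2 + f * W ^ 2 := by
      have := h.eq
      linear_combination this
    have h4 : (U ^ 2).natDegree = 2 * N := by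
      rw [h2, natDegree_add_eq_left_of_degree_lt hdd, hdG]
    have h5 : (U ^ 2).leadingCoeff = c ^ 2 := by
      rw [h2, leadingCoeff_add_of_degree_lt' hdd, leadingCoeff_pow, hGl]
    rw [natDegree_pow] at h4
    rw [leadingCoeff_pow] at h5
    exact ⟨h.pos, h.c_ne, h.eq, by omega, h5, h.ev⟩

end Pool.Agent.MNU.H65
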